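import Mathlib
import Pool.Agent.X24.QN.C

set_option autoImplicit false

open Polynomial

namespace Pool.Agent.Results.MP_16d611_an.FullBound

/-- The operator on `ℂⁿ` with the Euclidean norm given by the matrix `A`. -/
noncomputable def op {n : ℕ} (A : Matrix (Fin n) (Fin n) ℂ) :
    EuclideanSpace ℂ (Fin n) →L[ℂ] EuclideanSpace ℂ (Fin n) :=
  Matrix.toEuclideanCLM (n := Fin n) (𝕜 := ℂ) A

/-- The scaled `q`-numerical range
`Ω_q(A) = {⟨Ax, y⟩ / q : ‖x‖ = ‖y‖ = 1, ⟨x, y⟩ = q}`. Mathlib's inner product is linear in the second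
argument, so the number `⟨u, v⟩` of the problem file is `inner ℂ v u`. -/
def Om {n : ℕ} (q : ℂ) (A : Matrix (Fin n) (Fin n) ℂ) : Set ℂ :=
  {z : ℂ | ∃ x y : EuclideanSpace ℂ (Fin n),
    ‖x‖ = 1 ∧ ‖y‖ = 1 ∧ inner ℂ y x = q ∧ z = inner ℂ y (op A x) / q}

/-- `sup {|p(z)| : z ∈ Ω_q(A)}` (a real supremum; the set is bounded, and it is nonempty exactly when
`2 ≤ n` or `n = 1` and `|q| = 1`). -/
noncomputable def supOn {n : ℕ} (q : ℂ) (A : Matrix (Fin n) (Fin n) ℂ) (p : ℂ[X]) : ℝ :=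
  sSup ((fun z : ℂ => ‖p.eval z‖) '' Om q A)

/-- `c(q) = max(1, 2|q| / (1 + √(1 - |q|²)))`. -/
noncomputable def c (q : ℂ) : ℝ := max 1 (2 * ‖q‖ / (1 + √(1 - ‖q‖ ^ 2)))

theorem op_aeval {n : ℕ} (A : Matrix (Fin n) (Fin n) ℂ) (p : ℂ[X]) :
    op (aeval A p) = aeval (op A) p :=
  (Polynomial.aeval_algHom_apply
    ((Matrix.toEuclideanCLM (n := Fin n) (𝕜 := ℂ)).toAlgEquiv.toAlgHom) A p).symm

theorem Om_eq {n : ℕ} (q : ℂ) (A : Matrix (Fin n) (Fin n) ℂ) : Om q A = Pool.Agent.X24.QN.Om q (op A) := rfl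

theorem bddAbove {n : ℕ} {q : ℂ} (A : Matrix (Fin n) (Fin n) ℂ) (p : ℂ[X]) :
    BddAbove ((fun z : ℂ => ‖p.eval z‖) '' Om q A) := by
  have hsub : Om q A ⊆ Metric.closedBall 0 (‖op A‖ / ‖q‖) := by
    rintro z ⟨x, y, hx, hy, -, rfl⟩
    rw [mem_closedBall_zero_iff, norm_div]
    apply div_le_div_of_nonneg_right _ (norm_nonneg _)
    have h1 := norm_inner_le_norm (𝕜 := ℂ) y (op A x)
    have h2 := (op A).le_opNorm x
    rw [hy, one_mul] at h1
    rw [hx, mul_one] at h2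
    exact h1.trans h2
  have hc : IsCompact ((fun z : ℂ => ‖p.eval z‖) '' Metric.closedBall 0 (‖op A‖ / ‖q‖)) :=
    (isCompact_closedBall _ _).image (by fun_prop)
  exact hc.bddAbove.mono (Set.image_mono hsub)

theorem exists_orth {n : ℕ} (hn : 2 ≤ n) (x : EuclideanSpace ℂ (Fin n)) (hx : ‖x‖ = 1) :
    ∃ v : EuclideanSpace ℂ (Fin n), ‖v‖ = 1 ∧ inner ℂ x v = (0 : ℂ) := by
  have hx0 : x ≠ 0 := by
    rintro rfl
    rw [norm_zero] at hx
    exact zero_ne_one hx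
  have h := Submodule.finrank_add_finrank_orthogonal (𝕜 := ℂ) (ℂ ∙ x)
  rw [finrank_span_singleton hx0, finrank_euclideanSpace, Fintype.card_fin] at h
  have hpos : 0 < Module.finrank ℂ (ℂ ∙ x)ᗮ := by omega
  have : Nontrivial (ℂ ∙ x)ᗮ := Module.nontrivial_of_finrank_pos hpos
  obtain ⟨⟨v, hv⟩, hv0⟩ := exists_ne (0 : (ℂ ∙ x)ᗮ)
  have hv1 : v ≠ 0 := fun h => hv0 (Subtype.ext h)
  have hvi : inner ℂ x v = (0 : ℂ) := Submodule.mem_orthogonal_singleton_iff_inner_right.mp hv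
  refine ⟨((‖v‖⁻¹ : ℝ) : ℂ) • v, ?_, ?_⟩
  · rw [norm_smul, Complex.norm_real, norm_inv, norm_norm, inv_mul_cancel₀ (norm_ne_zero_iff.mpr hv1)]
  · rw [inner_smul_right, hvi, mul_zero]

theorem nontriv {n : ℕ} (hn : 0 < n) : Nontrivial (EuclideanSpace ℂ (Fin n)) := by
  apply Module.nontrivial_of_finrank_pos (R := ℂ)
  rw [finrank_euclideanSpace, Fintype.card_fin]
  exact hn

theorem exists_unit {n : ℕ} (hn : 0 < n) : ∃ x : EuclideanSpace ℂ (Fin n), ‖x‖ = 1 :=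
  ⟨EuclideanSpace.single ⟨0, hn⟩ 1, by simp⟩

theorem nonempty_iff {n : ℕ} (A : Matrix (Fin n) (Fin n) ℂ) {q : ℂ} (hq0 : 0 < ‖q‖) (hq1 : ‖q‖ ≤ 1) :
    (Om q A).Nonempty ↔ 2 ≤ n ∨ (n = 1 ∧ ‖q‖ = 1) := by
  have hq : q ≠ 0 := norm_pos_iff.mp hq0
  constructor
  · rintro ⟨z, x, y, hx, hy, hxy, -⟩
    rcases Nat.lt_or_ge 1 n with h | h
    · exact Or.inl h
    · right
      interval_cases n
      · exfalso
        rw [Subsingleton.elim x 0, norm_zero] at hx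
        exact zero_ne_one hx
      · refine ⟨rfl, ?_⟩
        have h1 : ‖x‖ = ‖x 0‖ := by rw [EuclideanSpace.norm_eq]; simp
        have h2 : ‖y‖ = ‖y 0‖ := by rw [EuclideanSpace.norm_eq]; simp
        rw [← hxy]
        simp [PiLp.inner_apply, ← h1, ← h2, hx, hy]
  · rintro (h | ⟨rfl, h⟩)
    · obtain ⟨x, hx⟩ := exists_unit (n := n) (by omega)
      obtain ⟨v, hv1, hv2⟩ := exists_orth h x hx
      exact ⟨_, Pool.Agent.X24.QN.mem_circle hq hq1 (op A) hx hv1 hv2 1 norm_one⟩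
    · obtain ⟨x, hx⟩ := exists_unit (n := 1) one_pos
      refine ⟨_, x, (starRingEnd ℂ) q • x, hx, ?_, ?_, rfl⟩
      · rw [norm_smul, RCLike.norm_conj, h, hx, mul_one]
      · rw [inner_smul_left, Complex.conj_conj, Pool.Agent.X24.QN.inner_self_one hx, mul_one]

/-- The bound, for polynomials bounded by one on the scaled range. -/
theorem bound_one {n : ℕ} (A : Matrix (Fin n) (Fin n) ℂ) {q : ℂ} (hq0 : 0 < ‖q‖) (hq1 : ‖q‖ ≤ 1)
    (hn : 2 ≤ n ∨ (n = 1 ∧ ‖q‖ = 1)) (p : ℂ[X]) (hp : ∀ z ∈ Om q A, ‖p.eval z‖ ≤ 1) :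
    ‖op (aeval A p)‖ ≤ c q := by
  have hq : q ≠ 0 := norm_pos_iff.mp hq0
  rw [op_aeval, c]
  rcases hn with h | ⟨rfl, h⟩
  · have := nontriv (n := n) (by omega)
    have h1 := Pool.Agent.X24.QN.main_le hq hq1 (op A) (exists_orth h) p hp
    rwa [← mul_div_assoc] at h1
  · have := nontriv (n := 1) one_pos
    have h1 : ‖aeval (op A) p‖ ≤ 2 * 1 := by
      apply Pool.Agent.W753.CZ.crouzeix_bound (op A) p 1
      rintro w ⟨x, hx, rfl⟩
      apply hp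
      refine ⟨x, (starRingEnd ℂ) q • x, hx, ?_, ?_, ?_⟩
      · rw [norm_smul, RCLike.norm_conj, h, hx, mul_one]
      · rw [inner_smul_left, Complex.conj_conj, Pool.Agent.X24.QN.inner_self_one hx, mul_one]
      · rw [inner_smul_left, Complex.conj_conj, mul_div_cancel_left₀ _ hq]
    rw [h]
    simp only [one_pow, sub_self, Real.sqrt_zero, add_zero, mul_one, div_one] at h1 ⊢
    exact h1.trans (le_max_right _ _)

theorem bound {n : ℕ} (A : Matrix (Fin n) (Fin n) ℂ) {q : ℂ} (hq0 : 0 < ‖q‖) (hq1 : ‖q‖ ≤ 1)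
    (hn : 2 ≤ n ∨ (n = 1 ∧ ‖q‖ = 1)) (p : ℂ[X]) :
    ‖op (aeval A p)‖ ≤ c q * supOn q A p := by
  have hne : (Om q A).Nonempty := (nonempty_iff A hq0 hq1).mpr hn
  have hM : ∀ z ∈ Om q A, ‖p.eval z‖ ≤ supOn q A p := fun z hz =>
    le_csSup (bddAbove A p) (Set.mem_image_of_mem _ hz)
  have hM0 : 0 ≤ supOn q A p := by
    obtain ⟨z, hz⟩ := hne
    exact (norm_nonneg _).trans (hM z hz)
  have hc : 0 ≤ c q := zero_le_one.trans (le_max_left _ _)
  generalize supOn q A p = M at hM hM0 ⊢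
  -- the scaled polynomial
  have key : ∀ N : ℝ, M < N → ‖op (aeval A p)‖ ≤ c q * N := by
    intro N hN
    have hN0 : 0 < N := lt_of_le_of_lt hM0 hN
    have h1 := bound_one A hq0 hq1 hn (C ((N : ℂ)⁻¹) * p) (by
      intro z hz
      rw [eval_mul, eval_C, norm_mul, norm_inv, Complex.norm_real, Real.norm_of_nonneg hN0.le,
        inv_mul_le_iff₀ hN0, mul_one]
      exact (hM z hz).trans hN.le)
    rw [op_aeval, map_mul, aeval_C, Algebra.algebraMap_eq_smul_one, smul_one_mul, norm_smul, norm_inv,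
      Complex.norm_real, Real.norm_of_nonneg hN0.le, inv_mul_le_iff₀ hN0, mul_comm, ← op_aeval] at h1
    exact h1
  refine le_of_forall_pos_le_add fun ε hε => ?_
  have hc1 : 0 < c q + 1 := by linarith
  have h1 := key (M + ε / (c q + 1)) (by linarith [div_pos hε hc1])
  have h2 : c q * (ε / (c q + 1)) ≤ ε := by
    rw [mul_div_assoc', div_le_iff₀ hc1]
    nlinarith
  linarith

section lower

variable {H : Type*} [NormedAddCommGroup H] [InnerProductSpace ℂ H]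

/-- The rank one nilpotent `x ↦ ⟨x, f⟩ e`. -/
noncomputable def E (e f : H) : H →L[ℂ] H := (innerSL ℂ f).smulRight e

theorem E_apply (e f x : H) : E e f x = inner ℂ f x • e := rfl

theorem nil_range {e f x y : H} (he : ‖e‖ = 1) (hf : ‖f‖ = 1) (hfe : inner ℂ f e = (0 : ℂ)) (hx : ‖x‖ = 1)
    (hy : ‖y‖ = 1) :
    2 * (‖(inner ℂ f x : ℂ)‖ * ‖(inner ℂ y e : ℂ)‖) ≤ 1 + √(1 - ‖(inner ℂ y x : ℂ)‖ ^ 2) := by
  set x' : H := x - (inner ℂ f x : ℂ) • f with hx'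
  set y' : H := y - (inner ℂ f y : ℂ) • f with hy'
  have hff : inner ℂ f f = (1 : ℂ) := Pool.Agent.X24.QN.inner_self_one hf
  have hfx' : inner ℂ f x' = (0 : ℂ) := by
    rw [hx', inner_sub_right, inner_smul_right, hff, mul_one, sub_self]
  have hfy' : inner ℂ f y' = (0 : ℂ) := by
    rw [hy', inner_sub_right, inner_smul_right, hff, mul_one, sub_self]
  have hyf' : inner ℂ y' f = (0 : ℂ) := by rw [← inner_conj_symm, hfy', map_zero]
  have hx1 : ‖(inner ℂ f x : ℂ)‖ ^ 2 + ‖x'‖ ^ 2 = 1 := by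
    have h1 := Pool.Agent.X24.QN.norm_add_orth hfx' (inner ℂ f x) 1
    rw [one_smul, hx', add_sub_cancel, hx, hf, norm_one, ← hx'] at h1
    linarith
  have hy1 : ‖(inner ℂ f y : ℂ)‖ ^ 2 + ‖y'‖ ^ 2 = 1 := by
    have h1 := Pool.Agent.X24.QN.norm_add_orth hfy' (inner ℂ f y) 1
    rw [one_smul, hy', add_sub_cancel, hy, hf, norm_one, ← hy'] at h1
    linarith
  have hq : ‖(inner ℂ y x : ℂ)‖ ≤ ‖(inner ℂ f x : ℂ)‖ * ‖(inner ℂ f y : ℂ)‖ + ‖x'‖ * ‖y'‖ := by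
    have hxx : x = (inner ℂ f x : ℂ) • f + x' := by rw [hx']; abel
    have hyy : y = (inner ℂ f y : ℂ) • f + y' := by rw [hy']; abel
    have h1 : (inner ℂ y x : ℂ) = inner ℂ f x * (starRingEnd ℂ) (inner ℂ f y) + inner ℂ y' x' := by
      conv_lhs => rw [hxx, hyy]
      rw [inner_add_left, inner_add_right, inner_add_right, inner_smul_left, inner_smul_left, inner_smul_right,
        inner_smul_right, hff, hfx', hyf']
      ring
    rw [h1]
    refine (norm_add_le _ _).trans (add_le_add ?_ ?_)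
    · rw [norm_mul, RCLike.norm_conj]
    · rw [mul_comm]
      exact norm_inner_le_norm _ _
  have hye : ‖(inner ℂ y e : ℂ)‖ ≤ ‖y'‖ := by
    have h1 : (inner ℂ y e : ℂ) = inner ℂ y' e := by
      rw [hy', inner_sub_left, inner_smul_left, hfe, mul_zero, sub_zero]
    rw [h1]
    have h2 := norm_inner_le_norm (𝕜 := ℂ) y' e
    rwa [he, mul_one] at h2
  have hb := norm_nonneg (inner ℂ f x : ℂ)
  have hd := norm_nonneg (inner ℂ f y : ℂ)
  have hb' := norm_nonneg x'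
  have hd' := norm_nonneg y'
  have hq0 := norm_nonneg (inner ℂ y x : ℂ)
  have hc0 := norm_nonneg (inner ℂ y e : ℂ)
  generalize ‖(inner ℂ f x : ℂ)‖ = b at *
  generalize ‖(inner ℂ f y : ℂ)‖ = d at *
  generalize ‖x'‖ = b' at *
  generalize ‖y'‖ = d' at *
  generalize ‖(inner ℂ y x : ℂ)‖ = s at *
  generalize ‖(inner ℂ y e : ℂ)‖ = r at *
  have h1 : b * r ≤ b * d' := mul_le_mul_of_nonneg_left hye hb
  have h2 : b * d' + b' * d ≤ 1 := by nlinarith [sq_nonneg (b - d'), sq_nonneg (b' - d)]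
  have h3 : b * d' - b' * d ≤ √(1 - s ^ 2) := by
    apply Real.le_sqrt_of_sq_le
    have h4 : s ^ 2 ≤ (b * d + b' * d') ^ 2 := pow_le_pow_left₀ hq0 hq 2
    have h5 : (b * d + b' * d') ^ 2 + (b * d' - b' * d) ^ 2 = (b ^ 2 + b' ^ 2) * (d ^ 2 + d' ^ 2) := by ring
    rw [hx1, hy1] at h5
    linarith
  linarith

end lower

/-- The constant cannot be smaller. -/
theorem lower {n : ℕ} (hn : 2 ≤ n) {q : ℂ} (hq0 : 0 < ‖q‖) (hq1 : ‖q‖ ≤ 1) (k : ℝ)
    (hk : ∀ (A : Matrix (Fin n) (Fin n) ℂ) (p : ℂ[X]), ‖op (aeval A p)‖ ≤ k * supOn q A p) : c q ≤ k := by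
  have hne : ∀ A : Matrix (Fin n) (Fin n) ℂ, (Om q A).Nonempty := fun A =>
    (nonempty_iff A hq0 hq1).mpr (Or.inl hn)
  have := nontriv (n := n) (by omega)
  have hk1 : 1 ≤ k := by
    have h := hk 0 1
    have h1 : supOn q (0 : Matrix (Fin n) (Fin n) ℂ) 1 = 1 := by
      have h2 : (fun z : ℂ => ‖(1 : ℂ[X]).eval z‖) '' Om q (0 : Matrix (Fin n) (Fin n) ℂ) = {1} := by
        obtain ⟨z0, hz0⟩ := hne 0
        ext t
        simp only [Set.mem_image, eval_one, norm_one, Set.mem_singleton_iff]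
        constructor
        · rintro ⟨z, -, h⟩; exact h.symm
        · intro h; exact ⟨z0, hz0, h.symm⟩
      rw [supOn, h2, csSup_singleton]
    rw [h1, op_aeval, map_one, mul_one] at h
    have h3 : ‖(1 : EuclideanSpace ℂ (Fin n) →L[ℂ] EuclideanSpace ℂ (Fin n))‖ = 1 := norm_one
    rwa [h3] at h
  rw [c]
  refine max_le hk1 ?_
  obtain ⟨f, hf⟩ := exists_unit (n := n) (by omega)
  obtain ⟨e, he, hfe⟩ := exists_orth hn f hf
  set B : Matrix (Fin n) (Fin n) ℂ := (Matrix.toEuclideanCLM (n := Fin n) (𝕜 := ℂ)).symm (E e f) with hB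
  have hBop : op B = E e f := by rw [op, hB, StarAlgEquiv.apply_symm_apply]
  have h := hk B X
  rw [op_aeval, aeval_X, hBop] at h
  have h1 : (1 : ℝ) ≤ ‖E e f‖ := by
    have h2 := (E e f).le_opNorm f
    rw [E_apply, Pool.Agent.X24.QN.inner_self_one hf, one_smul, he, hf, mul_one] at h2
    exact h2
  have h2 : supOn q B X ≤ (1 + √(1 - ‖q‖ ^ 2)) / (2 * ‖q‖) := by
    apply csSup_le ((hne B).image _)
    rintro _ ⟨z, ⟨x, y, hx, hy, hxy, rfl⟩, rfl⟩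
    have h3 := nil_range he hf hfe hx hy
    rw [hxy] at h3
    simp only [eval_X, norm_div, hBop, E_apply, inner_smul_right, norm_mul]
    rw [div_le_div_iff₀ hq0 (by positivity)]
    nlinarith
  have hk0 : 0 ≤ k := by linarith
  have h3 : 1 ≤ k * ((1 + √(1 - ‖q‖ ^ 2)) / (2 * ‖q‖)) :=
    h1.trans (h.trans (mul_le_mul_of_nonneg_left h2 hk0))
  have h4 : 0 ≤ √(1 - ‖q‖ ^ 2) := Real.sqrt_nonneg _
  rw [div_le_iff₀ (by linarith)]
  rw [mul_div_assoc', le_div_iff₀ (by positivity)] at h3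
  linarith

/-- **The Crouzeix-type bound for the scaled `q`-numerical range.**
(1) `‖p(A)‖ ≤ c(q) sup_{Ω_q(A)} |p|` for all `n × n` complex matrices `A`, all `q` with `0 < |q| ≤ 1` for
which `Ω_q(A)` is nonempty, and all complex polynomials `p`.
(2) `Ω_q(A)` is nonempty exactly when `n ≥ 2`, or `n = 1` and `|q| = 1`.
(3) For all `n ≥ 2` and all `q` with `0 < |q| ≤ 1`, `c(q)` is the least constant with this property. -/
theorem result :
    (∀ (n : ℕ) (A : Matrix (Fin n) (Fin n) ℂ) (q : ℂ), 0 < ‖q‖ → ‖q‖ ≤ 1 → (Om q A).Nonempty →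
      ∀ p : ℂ[X], BddAbove ((fun z : ℂ => ‖p.eval z‖) '' Om q A) ∧
        ‖op (aeval A p)‖ ≤ c q * supOn q A p) ∧
    (∀ (n : ℕ) (A : Matrix (Fin n) (Fin n) ℂ) (q : ℂ), 0 < ‖q‖ → ‖q‖ ≤ 1 →
      ((Om q A).Nonempty ↔ 2 ≤ n ∨ (n = 1 ∧ ‖q‖ = 1))) ∧
    (∀ (n : ℕ) (q : ℂ), 2 ≤ n → 0 < ‖q‖ → ‖q‖ ≤ 1 →
      IsLeast {k : ℝ | ∀ (A : Matrix (Fin n) (Fin n) ℂ) (p : ℂ[X]),
        ‖op (aeval A p)‖ ≤ k * supOn q A p} (c q)) := by
  refine ⟨fun n A q hq0 hq1 hne p => ⟨bddAbove A p, ?_⟩, fun n A q hq0 hq1 => nonempty_iff A hq0 hq1, ?_⟩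
  · exact bound A hq0 hq1 ((nonempty_iff A hq0 hq1).mp hne) p
  · intro n q hn hq0 hq1
    exact ⟨fun A p => bound A hq0 hq1 (Or.inl hn) p, fun k hk => lower hn hq0 hq1 k hk⟩

end Pool.Agent.Results.MP_16d611_an.FullBound
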